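import Pool.Agent.N375.AV.D
import Pool.Agent.N375.AV.Ex
import Pool.Agent.Results.MP_cb27ba_nt.SimultaneousApproximations

/-!
# The initial segments of arbitrary sets of integers for ALL primes near values of additive functions and their compositions

Let `F = f_1 ∘ ⋯ ∘ f_k` be a composition of functions dominated by the largest prime factor: for example additive functions
`f` with `f (q^j) ≤ C q^j` at the prime powers, with different values at different large primes (the sum of the prime
factors), the largest prime factor itself, and Kempner's function. Let `G` have steps bounded below by a positive constant and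
growth at most `v ^ D`, for example `G v = v` or `a v^D`. Let `𝒜` be any set of nonnegative integers (no condition on its
structure or energy) and let `𝒜(p)` be the set of its elements below the prime `p`. For every `δ > 0` there is `τ > 0`
(independent of `𝒜`, `F` and `G`) such that, if `κ ≥ 0` and `D (1 - τ) + κ < 1`, for all `m ≤ N` but
`K N exp (- c (log N)^(1 / (k + 1)))`, ALL primes `p` with `|p - G (F m)| ≤ F(m) ^ κ` and `|𝒜(p)| ≥ p ^ δ` satisfy the bound of
the question for the quadratic character and all subsets `A` of `𝒜(p)` with at least `|𝒜(p)| ^ (1 - τ)` elements: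
`|∑_{a, b ∈ A} (a - b | p)| < |A| ^ (2 - τ)`. For instance (`F` the largest prime factor, `G v = v`) this holds for the largest
prime factor `p = P(m)` of almost all `m`. The values of `F` are taken with very large multiplicities; and so this does not
follow from the number of the exceptional primes.
-/

set_option autoImplicit false

namespace Pool.Agent.Results.MP_cb27ba_nt.AdditiveValuesH35

open Pool.Agent.Results.MP_cb27ba_nt.SimultaneousApproximations (Good count)
open Pool.Agent.N733.TG (Expanding expanding_pow)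
open Pool.Agent.N375.AV (PD comp good_nat pd_additive pd_largest pd_kempner)

/-- **Theorem.** For every `δ > 0` there is `τ` in `(0, 1]` with the following property. Let `f_1, …, f_k` be functions
dominated by the largest prime factor (`PD`), `F = f_1 ∘ ⋯ ∘ f_k` their composition (`comp fs`), `G` with steps `≥ const > 0`
and growth at most `v ^ D`, `κ ≥ 0` and `D (1 - τ) + κ < 1`, and let `𝒜` be ANY set of nonnegative integers. (1) For all `m ≤ N`
but `K N exp (- c (log N)^(1 / (k + 1)))`, ALL primes `p` with `|p - G (F m)| ≤ F(m) ^ κ` are good for `𝒜`.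
(2) - (4) Examples of functions `f_i` and `G`. -/
theorem result :
    (∀ δ : ℝ, 0 < δ → ∃ τ : ℝ, 0 < τ ∧ τ ≤ 1 ∧ ∀ fs : List (ℕ → ℕ), (∀ f ∈ fs, PD f) →
      ∀ (G : ℕ → ℝ) (D : ℝ), Expanding G D → ∀ κ : ℝ, 0 ≤ κ → D * (1 - τ) + κ < 1 → ∀ 𝒜 : Set ℕ,
      ∃ c K : ℝ, 0 < c ∧ ∀ N : ℕ, 1 ≤ N →
        ({m : ℕ | 1 ≤ m ∧ m ≤ N ∧ ¬ ∀ p : ℕ, 1 ≤ p → p.Prime → |(p : ℝ) - G (comp fs m)| ≤ (comp fs m : ℝ) ^ κ →
          Good δ τ 𝒜 p}.ncard : ℝ) ≤ K * N * Real.exp (-(c * Real.log N ^ ((1 : ℝ) / (fs.length + 1))))) ∧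
    (∀ f : ℕ → ℕ, (∀ a b : ℕ, Nat.Coprime a b → f (a * b) = f a + f b) →
      (∃ C : ℕ, ∀ q j : ℕ, q.Prime → 1 ≤ j → f (q ^ j) ≤ C * q ^ j) →
      (∃ P : ℕ, ∀ p q : ℕ, p.Prime → q.Prime → P ≤ p → P ≤ q → f p = f q → p = q) → PD f) ∧
    (PD (fun n => n.primeFactors.sup id) ∧ PD (fun n => sInf {k : ℕ | n ∣ k.factorial})) ∧
    ∀ a d : ℝ, 0 < a → 1 ≤ d → Expanding (fun v => a * (v : ℝ) ^ d) d := by
  refine ⟨fun δ hδ => ?_, fun f a1 a2 a3 => pd_additive a1 a2 a3, ⟨pd_largest, pd_kempner⟩,
    fun a d ha hd => expanding_pow ha hd⟩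
  obtain ⟨τ, C, hτ, hτ1, hcount⟩ := count δ hδ
  refine ⟨τ, hτ, hτ1, fun fs hfs G D hG κ hκ h1 𝒜 => ?_⟩
  refine good_nat Nat.Prime (Good δ τ 𝒜) fs hfs hG (s := 1 - τ) (by linarith) hκ h1 ?_
  intro ε hε
  refine ⟨|C|, fun X hX => (hcount 𝒜 X hX).trans ?_⟩
  have hX1 : (1 : ℝ) ≤ X := by exact_mod_cast hX
  refine mul_le_mul (le_abs_self C) (Real.rpow_le_rpow_of_exponent_le hX1 (by linarith)) ?_ (abs_nonneg C)
  exact Real.rpow_nonneg (by linarith) _

end Pool.Agent.Results.MP_cb27ba_nt.AdditiveValuesH35
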