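import Pool.Agent.V7H48.OD.Main

/-!
# Difference sums over one set, ordered difference sums, and the Paley graph conjecture

For odd characters the difference sum of the page is zero, so Q1 is a statement about the even
characters. It is equivalent to the bound `p ^ (-δ) |A| |B|` for the sums of `χ (a + b)` over TWO
arbitrary sets, for the even characters, with the same thresholds for the sizes.

The missing half: if only the differences `b - a` with `a < b` are summed, for an arbitrary choice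
of linear orders of the residues modulo the primes `p` (for instance the usual order of the residues
`0, …, p - 1`), then the power saving over one set, for any family `F` of characters, is equivalent
to the two-set bound for `F`, again with the same thresholds; and it suffices to know it for sets all
of whose sums of `h` elements and all of whose products of `h` elements are different. So the ordered
form of Q1 is the Paley graph conjecture, and the latter is Q1 together with the ordered form for the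
odd characters.

Proof: a set of pairs `A × C` is cut by thresholds into products of separated sets; for separated
sets the sum over `A × C` is a combination of ordered sums over `A ∪ C`, `A` and `C`. The pieces at
all levels of the binary tree contribute a geometric series, and so no logarithm is lost.
-/

set_option autoImplicit false

namespace Pool.Agent.Results.MP_cb27ba_nt.OrderedDifferencesH48

open Pool.Agent.N793.PG
open Pool.Agent.N793.GP
open Pool.Agent.V7H48.OD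

/-- Q1 of the page above the exponent `α`; `Q1 0` is Q1 -/
def Q1 (α : ℝ) : Prop :=
  ∀ δ : ℝ, α < δ → ∃ τ : ℝ, 0 < τ ∧ ∃ P : ℕ, ∀ p : ℕ, p.Prime → P ≤ p →
    ∀ A : Finset (ZMod p), (p : ℝ) ^ δ < (A.card : ℝ) →
      ∀ χ : DirichletCharacter ℂ p, χ ≠ 1 →
        ‖∑ a ∈ A, ∑ b ∈ A, χ (a - b)‖ < (A.card : ℝ) ^ (2 - τ)

/-- Q1 for the sets all of whose sums of `h` elements, and all of whose products of `h` elements,
are different up to the order -/
def Q1B (h : ℕ) : Prop :=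
  ∀ δ : ℝ, 0 < δ → ∃ τ : ℝ, 0 < τ ∧ ∃ P : ℕ, ∀ p : ℕ, p.Prime → P ≤ p →
    ∀ A : Finset (ZMod p), (p : ℝ) ^ δ < (A.card : ℝ) → AddB h A → MulB h A →
      ∀ χ : DirichletCharacter ℂ p, χ ≠ 1 →
        ‖∑ a ∈ A, ∑ b ∈ A, χ (a - b)‖ < (A.card : ℝ) ^ (2 - τ)

/-- The two-set bound for the characters in `F` above the exponent `α`: for every `ε > α` there is
`δ > 0` such that `|∑ χ (a + b)| ≤ p ^ (-δ) |A| |B|` for all large primes `p`, all sets `A`, `B` with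
more than `p ^ ε` elements and all nontrivial `χ` in `F`. -/
def TwoSets (F : ∀ p : ℕ, MulChar (ZMod p) ℂ → Prop) (α : ℝ) : Prop :=
  ∀ ε : ℝ, α < ε → ∃ δ : ℝ, 0 < δ ∧ Saves F ε ε δ

/-- Q1 for the ordered sums `∑ χ (b - a)`, over the pairs `a, b` of elements of `A` with
`e a < e b`, and the characters in `F`, above the exponent `α` -/
def Ordered (e : ∀ p : ℕ, ZMod p → ℕ) (F : ∀ p : ℕ, MulChar (ZMod p) ℂ → Prop) (α : ℝ) : Prop :=
  ∀ δ : ℝ, α < δ → ∃ τ : ℝ, 0 < τ ∧ ∃ P : ℕ, ∀ p : ℕ, p.Prime → P ≤ p →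
    ∀ A : Finset (ZMod p), (p : ℝ) ^ δ < (A.card : ℝ) →
      ∀ χ : MulChar (ZMod p) ℂ, χ ≠ 1 → F p χ → ‖osum (e p) χ A‖ < (A.card : ℝ) ^ (2 - τ)

/-- the same for the sets without coincidences between sums or products of `h` elements -/
def OrderedB (h : ℕ) (e : ∀ p : ℕ, ZMod p → ℕ) (F : ∀ p : ℕ, MulChar (ZMod p) ℂ → Prop) : Prop :=
  ∀ δ : ℝ, 0 < δ → ∃ τ : ℝ, 0 < τ ∧ ∃ P : ℕ, ∀ p : ℕ, p.Prime → P ≤ p →
    ∀ A : Finset (ZMod p), (p : ℝ) ^ δ < (A.card : ℝ) → AddB h A → MulB h A →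
      ∀ χ : MulChar (ZMod p) ℂ, χ ≠ 1 → F p χ → ‖osum (e p) χ A‖ < (A.card : ℝ) ^ (2 - τ)

/-- the Paley graph conjecture (the problem MP_f6e9a2_nt), word for word -/
def PaleyGraphConjecture : Prop :=
  ∀ ε : ℝ, 0 < ε → ∃ p₀ : ℕ, ∃ δ : ℝ, 0 < δ ∧
    ∀ p : ℕ, p.Prime → p₀ < p →
      ∀ A B : Finset (ZMod p),
        (p : ℝ) ^ ε < (A.card : ℝ) → (p : ℝ) ^ ε < (B.card : ℝ) →
        ∀ χ : MulChar (ZMod p) ℂ, χ ≠ 1 →
          ‖∑ a ∈ A, ∑ b ∈ B, χ (a + b)‖ ≤ (p : ℝ) ^ (-δ) * (A.card : ℝ) * (B.card : ℝ)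

/-- odd characters -/
def OddChar (p : ℕ) (χ : MulChar (ZMod p) ℂ) : Prop := χ (-1) = -1

/-- `e p` is injective for every prime `p`: it defines a linear order of the residues -/
def IsOrder (e : ∀ p : ℕ, ZMod p → ℕ) : Prop := ∀ p : ℕ, p.Prime → Function.Injective (e p)

theorem q1_iff (α : ℝ) (hα : 0 ≤ α) :
    Q1 α ↔ ∀ ε : ℝ, α < ε → ∃ δ : ℝ, 0 < δ ∧ KSaves dker (fun _ _ => True) ε δ := by
  unfold Q1
  refine forall_congr' fun ε => ?_
  constructor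
  · intro h hε
    have h1 := (conv (fun p A χ => ‖∑ a ∈ A, ∑ b ∈ A, χ (a - b)‖) (fun _ _ => True)
      (fun _ _ => True) ε (by linarith)).1 (by
        obtain ⟨τ, hτ, P, h⟩ := h hε
        exact ⟨τ, hτ, P, fun p hp hlt A hA _ χ hχ _ => h p hp hlt A hA χ hχ⟩)
    obtain ⟨δ, hδ, p₀, h1⟩ := h1
    exact ⟨δ, hδ, p₀, fun p hp hlt A hA χ hχ _ => h1 p hp hlt A hA trivial χ hχ trivial⟩
  · intro h hε
    obtain ⟨δ, hδ, p₀, h⟩ := h hε
    have h1 := (conv (fun p A χ => ‖∑ a ∈ A, ∑ b ∈ A, χ (a - b)‖) (fun _ _ => True)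
      (fun _ _ => True) ε (by linarith)).2
        ⟨δ, hδ, p₀, fun p hp hlt A hA _ χ hχ _ => h p hp hlt A hA χ hχ trivial⟩
    obtain ⟨τ, hτ, P, h1⟩ := h1
    exact ⟨τ, hτ, P, fun p hp hlt A hA χ hχ => h1 p hp hlt A hA trivial χ hχ trivial⟩

theorem q1B_iff (h : ℕ) :
    Q1B h ↔ ∀ ε : ℝ, 0 < ε → ∃ δ : ℝ, 0 < δ ∧ KSavesB h dker (fun _ _ => True) ε δ := by
  unfold Q1B
  refine forall_congr' fun ε => ?_
  constructor
  · intro h1 hε
    obtain ⟨τ, hτ, P, h2⟩ := h1 hε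
    obtain ⟨δ, hδ, p₀, h3⟩ := (conv (fun p A χ => ‖∑ a ∈ A, ∑ b ∈ A, χ (a - b)‖)
      (fun _ A => AddB h A ∧ MulB h A) (fun _ _ => True) ε hε).1
        ⟨τ, hτ, P, fun p hp hlt A hA hR χ hχ _ => h2 p hp hlt A hA hR.1 hR.2 χ hχ⟩
    exact ⟨δ, hδ, p₀, fun p hp hlt A hA g1 g2 χ hχ _ => h3 p hp hlt A hA ⟨g1, g2⟩ χ hχ trivial⟩
  · intro h1 hε
    obtain ⟨δ, hδ, p₀, h2⟩ := h1 hε
    obtain ⟨τ, hτ, P, h3⟩ := (conv (fun p A χ => ‖∑ a ∈ A, ∑ b ∈ A, χ (a - b)‖)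
      (fun _ A => AddB h A ∧ MulB h A) (fun _ _ => True) ε hε).2
        ⟨δ, hδ, p₀, fun p hp hlt A hA hR χ hχ _ => h2 p hp hlt A hA hR.1 hR.2 χ hχ trivial⟩
    exact ⟨τ, hτ, P, fun p hp hlt A hA g1 g2 χ hχ => h3 p hp hlt A hA ⟨g1, g2⟩ χ hχ trivial⟩

theorem ordered_iff (e : ∀ p : ℕ, ZMod p → ℕ) (F : ∀ p : ℕ, MulChar (ZMod p) ℂ → Prop)
    (α : ℝ) (hα : 0 ≤ α) :
    Ordered e F α ↔ ∀ ε : ℝ, α < ε → ∃ δ : ℝ, 0 < δ ∧ OrdSaves e F ε δ := by
  unfold Ordered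
  refine forall_congr' fun ε => ?_
  constructor
  · intro h1 hε
    obtain ⟨τ, hτ, P, h2⟩ := h1 hε
    obtain ⟨δ, hδ, p₀, h3⟩ := (conv (fun p A χ => ‖osum (e p) χ A‖) (fun _ _ => True) F ε
      (by linarith)).1 ⟨τ, hτ, P, fun p hp hlt A hA _ χ hχ hF => h2 p hp hlt A hA χ hχ hF⟩
    exact ⟨δ, hδ, p₀, fun p hp hlt A hA χ hχ hF => h3 p hp hlt A hA trivial χ hχ hF⟩
  · intro h1 hε
    obtain ⟨δ, hδ, p₀, h2⟩ := h1 hε
    obtain ⟨τ, hτ, P, h3⟩ := (conv (fun p A χ => ‖osum (e p) χ A‖) (fun _ _ => True) F ε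
      (by linarith)).2 ⟨δ, hδ, p₀, fun p hp hlt A hA _ χ hχ hF => h2 p hp hlt A hA χ hχ hF⟩
    exact ⟨τ, hτ, P, fun p hp hlt A hA χ hχ hF => h3 p hp hlt A hA trivial χ hχ hF⟩

theorem orderedB_iff (h : ℕ) (e : ∀ p : ℕ, ZMod p → ℕ)
    (F : ∀ p : ℕ, MulChar (ZMod p) ℂ → Prop) :
    OrderedB h e F ↔ ∀ ε : ℝ, 0 < ε → ∃ δ : ℝ, 0 < δ ∧ KSavesB h (oker e) F ε δ := by
  unfold OrderedB
  refine forall_congr' fun ε => ?_
  constructor
  · intro h1 hε
    obtain ⟨τ, hτ, P, h2⟩ := h1 hε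
    obtain ⟨δ, hδ, p₀, h3⟩ := (conv (fun p A χ => ‖osum (e p) χ A‖)
      (fun _ A => AddB h A ∧ MulB h A) F ε hε).1
        ⟨τ, hτ, P, fun p hp hlt A hA hR χ hχ hF => h2 p hp hlt A hA hR.1 hR.2 χ hχ hF⟩
    exact ⟨δ, hδ, p₀, fun p hp hlt A hA g1 g2 χ hχ hF => by
      rw [oker_sum]; exact h3 p hp hlt A hA ⟨g1, g2⟩ χ hχ hF⟩
  · intro h1 hε
    obtain ⟨δ, hδ, p₀, h2⟩ := h1 hε
    obtain ⟨τ, hτ, P, h3⟩ := (conv (fun p A χ => ‖osum (e p) χ A‖)
      (fun _ A => AddB h A ∧ MulB h A) F ε hε).2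
        ⟨δ, hδ, p₀, fun p hp hlt A hA hR χ hχ hF => by
          have := h2 p hp hlt A hA hR.1 hR.2 χ hχ hF
          rwa [oker_sum] at this⟩
    exact ⟨τ, hτ, P, fun p hp hlt A hA g1 g2 χ hχ hF => h3 p hp hlt A hA ⟨g1, g2⟩ χ hχ hF⟩

theorem paley_iff : PaleyGraphConjecture ↔ TwoSets (fun _ _ => True) 0 := by
  constructor
  · intro h ε hε
    obtain ⟨p₀, δ, hδ, H⟩ := h ε hε
    exact ⟨δ, hδ, p₀, fun p hp hlt A B hA hB χ hχ _ => H p hp hlt A B hA hB χ hχ⟩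
  · intro h ε hε
    obtain ⟨δ, hδ, p₀, H⟩ := h ε hε
    exact ⟨p₀, δ, hδ, fun p hp hlt A B hA hB χ hχ => H p hp hlt A B hA hB χ hχ trivial⟩

theorem result :
    -- (1) the difference sums of odd characters are zero
    (∀ (p : ℕ) [Fact p.Prime] (χ : MulChar (ZMod p) ℂ), OddChar p χ → ∀ A : Finset (ZMod p),
      ∑ a ∈ A, ∑ b ∈ A, χ (a - b) = 0) ∧
    -- (2) Q1 is the two-set bound for the even characters, with the same thresholds
    (∀ α : ℝ, 0 ≤ α → (Q1 α ↔ TwoSets EvenChar α)) ∧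
    -- (3) for every choice of orders and every family of characters, the ordered form of Q1 is the
    -- two-set bound, with the same thresholds
    (∀ e : ∀ p : ℕ, ZMod p → ℕ, IsOrder e → ∀ (F : ∀ p : ℕ, MulChar (ZMod p) ℂ → Prop) (α : ℝ),
      0 ≤ α → (Ordered e F α ↔ TwoSets F α)) ∧
    -- (4) the ordered form of Q1 is the Paley graph conjecture; the latter is Q1 together with the
    -- ordered form for the odd characters
    (∀ e : ∀ p : ℕ, ZMod p → ℕ, IsOrder e →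
      (Ordered e (fun _ _ => True) 0 ↔ PaleyGraphConjecture) ∧
      (PaleyGraphConjecture ↔ Q1 0 ∧ Ordered e OddChar 0)) ∧
    -- (5) sets without coincidences between sums or products of `h` elements suffice
    (∀ h : ℕ, 1 ≤ h → (Q1 0 ↔ Q1B h) ∧ (∀ e : ∀ p : ℕ, ZMod p → ℕ, IsOrder e →
      ∀ F : ∀ p : ℕ, MulChar (ZMod p) ℂ → Prop, (TwoSets F 0 ↔ OrderedB h e F))) ∧
    -- (6) the exponents
    (∀ e : ∀ p : ℕ, ZMod p → ℕ, IsOrder e → ∀ (F : ∀ p : ℕ, MulChar (ZMod p) ℂ → Prop)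
      (α ε δ₀ δ : ℝ), 0 < α → α < ε → δ < min δ₀ (ε - α) →
        (OrdSaves e F α δ₀ → Saves F ε ε δ) ∧ (Saves F α α δ₀ → OrdSaves e F ε δ)) ∧
    -- (7) every prime and every order: an explicit bound
    (∀ (p : ℕ) [Fact p.Prime] (χ : MulChar (ZMod p) ℂ), χ ≠ 1 → ∀ (e : ZMod p → ℕ),
      Function.Injective e → ∀ A : Finset (ZMod p),
        ‖osum e χ A‖ ≤ Real.sqrt p * (Nat.clog 2 A.card * A.card)) := by
  have h3 : ∀ e : ∀ p : ℕ, ZMod p → ℕ, IsOrder e →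
      ∀ (F : ∀ p : ℕ, MulChar (ZMod p) ℂ → Prop) (α : ℝ), 0 ≤ α →
        (Ordered e F α ↔ TwoSets F α) := by
    intro e he F α hα
    rw [ordered_iff e F α hα]
    exact ordered_iff_two he α hα
  have hval : IsOrder fun p => (ZMod.val : ZMod p → ℕ) := val_inj
  have h2 : ∀ α : ℝ, 0 ≤ α → (Q1 α ↔ TwoSets EvenChar α) := by
    intro α hα
    rw [q1_iff α hα, ← h3 _ hval EvenChar α hα, ordered_iff _ _ α hα]
    exact forall_congr' fun ε => forall_congr' fun _ => dker_iff hval ε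
  refine ⟨?_, h2, h3, ?_, ?_, ?_, ?_⟩
  · intro p _ χ hodd A
    exact odd_sum χ hodd A
  · intro e he
    refine ⟨(h3 e he _ 0 le_rfl).trans paley_iff.symm, ?_⟩
    rw [paley_iff, h2 0 le_rfl, h3 e he OddChar 0 le_rfl]
    constructor
    · intro h
      constructor
      · intro ε hε
        obtain ⟨δ, hδ, p₀, H⟩ := h ε hε
        exact ⟨δ, hδ, p₀, fun p hp hlt A B hA hB χ hχ _ => H p hp hlt A B hA hB χ hχ trivial⟩
      · intro ε hε
        obtain ⟨δ, hδ, p₀, H⟩ := h ε hε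
        exact ⟨δ, hδ, p₀, fun p hp hlt A B hA hB χ hχ _ => H p hp hlt A B hA hB χ hχ trivial⟩
    · rintro ⟨g1, g2⟩ ε hε
      obtain ⟨δ, hδ, H1⟩ := g1 ε hε
      obtain ⟨δ', hδ', H2⟩ := g2 ε hε
      obtain ⟨p₁, k1⟩ := H1.mono le_rfl le_rfl (min_le_left δ δ')
      obtain ⟨p₂, k2⟩ := H2.mono le_rfl le_rfl (min_le_right δ δ')
      refine ⟨min δ δ', lt_min hδ hδ', p₁ + p₂, fun p hp hlt A B hA hB χ hχ _ => ?_⟩
      rcases even_or_odd χ with h | h
      · exact k1 p hp (by omega) A B hA hB χ hχ h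
      · exact k2 p hp (by omega) A B hA hB χ hχ h
  · intro h hh
    refine ⟨?_, ?_⟩
    · rw [q1_iff 0 le_rfl, q1B_iff h]
      exact exists_KSavesB dker_le h hh
    · intro e he F
      rw [orderedB_iff h e F, ← h3 e he F 0 le_rfl, ordered_iff e F 0 le_rfl]
      simp only [ordSaves_iff]
      exact exists_KSavesB (oker_le e) h hh
  · intro e he F α ε δ₀ δ hα hε hδ
    have h5 := hδ.trans_le (min_le_left _ _)
    have h6 := hδ.trans_le (min_le_right _ _)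
    exact ⟨fun H => two_of_ordered he hα H h5 h6 hε, fun H => ordered_of_two he H h5 h6⟩
  · intro p _ χ hχ e he A
    exact osum_classical χ hχ e he A

end Pool.Agent.Results.MP_cb27ba_nt.OrderedDifferencesH48
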