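import Pool.Agent.V7H35.StarNat
import Pool.Agent.Results.MP_cb27ba_nt.SimultaneousApproximations

/-!
# The initial segments of arbitrary sets of integers for ALL primes near powers, orbits and other sequences

Let `f_k`, `k = 0, 1, 2, …`, be positive functions on `(a, ∞)`, `a ≥ 0`, such that `f_k(t) / t` is nondecreasing, and such
that the sequence `f_k(t)` has exponent of convergence at most `ρ` for each `t > a`: for instance `f_k(t) = t ^ (v_k)` for
exponents `v_k ≥ 1` (`ρ = 0`; all powers, the powers `t ^ (3 ^ k)` of Mills, …), the orbits `f_k(t) = g (g (⋯ g (t)))` of any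
map `g` with `g(t) > t` and `g(t) / t` nondecreasing (`ρ = 0`), and `f_k(t) = v_k t`. Let `𝒜` be any set of nonnegative
integers (no condition on its structure or energy) and let `𝒜(p)` be the set of its elements below the prime `p`. For every
`δ > 0` there is `τ > 0` (independent of `𝒜` and the functions) such that for all `θ < 1` and all `α > a` outside a set of
Hausdorff dimension at most `(1 - τ + ρ) / (1 - θ)`, for all `b`, for all but finitely many `k`, ALL primes `p` with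
`|p - f_k(α)| ≤ b f_k(α) ^ θ` and `|𝒜(p)| ≥ p ^ δ` satisfy the bound of the question for the quadratic character and all
subsets `A` of `𝒜(p)` with at least `|𝒜(p)| ^ (1 - τ)` elements: `|∑_{a, b ∈ A} (a - b | p)| < |A| ^ (2 - τ)`. One exceptional
set of `α` suffices for countably many sets `𝒜`. For powers and orbits (`ρ = 0`) and `θ < τ` this holds for almost all `α`:
these primes are a very sparse set (for `p` near `α ^ (3 ^ k)` they include the primes of Mills), and so this does not follow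
from the number of the exceptional primes.
-/

set_option autoImplicit false

namespace Pool.Agent.Results.MP_cb27ba_nt.StarshapedPrimesH35

open Pool.Agent.Results.MP_cb27ba_nt.SimultaneousApproximations (Good count)
open Pool.Agent.V7H35.StarNat (star_good_nat)

/-- the functions `f n` are positive on `(a, ∞)`, `a ≥ 0`, and `f n x / x` is nondecreasing there -/
def Starshaped (a : ℝ) (f : ℕ → ℝ → ℝ) : Prop :=
  0 ≤ a ∧ ∀ n : ℕ, ∀ x y : ℝ, a < x → x ≤ y → 0 < f n x ∧ f n x / x ≤ f n y / y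

/-- for each `x > a` the exponent of convergence of the sequence `f n x` is at most `τ` -/
def ExpLe (a : ℝ) (f : ℕ → ℝ → ℝ) (τ : ℝ) : Prop :=
  ∀ x : ℝ, a < x → ∀ t : ℝ, τ < t → Summable (fun n : ℕ => (f n x) ^ (-t))

/-- **Theorem.** For every `δ > 0` there is `τ` in `(0, 1]` with the following property. Let `f` be starshaped functions on
`(a, ∞)` of exponent of convergence at most `ρ ≥ 0`, `θ < 1`, and let `𝒜_0, 𝒜_1, …` be ANY sets of nonnegative integers. (1) For
all `α > a` outside ONE set of Hausdorff dimension at most `(1 - τ + ρ) / (1 - θ)`, for all `i` and all `b`, for all large `k`,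
ALL primes `p` with `|p - f_k(α)| ≤ b f_k(α) ^ θ` are good for `𝒜_i`.
(2) - (4) The functions `v_n x`, `v_n > 0`, are starshaped on `(0, ∞)`, of exponent `ρ` if `v` has exponent of convergence at
most `ρ`; the functions `x ^ (v_n)`, `v_n ≥ 1`, are starshaped on `(1, ∞)`, of exponent `0` if the sums of `exp (-t v_n)`
converge for `t > 0`; and the iterates of a map `g` with `g(x) > x` for `x > a` and `g(x) / x` nondecreasing are starshaped on
`(a, ∞)`, of exponent `0`. -/
theorem result :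
    (∀ δ : ℝ, 0 < δ → ∃ τ : ℝ, 0 < τ ∧ τ ≤ 1 ∧ ∀ (a : ℝ) (f : ℕ → ℝ → ℝ) (ρ θ : ℝ), Starshaped a f → 0 ≤ ρ →
      ExpLe a f ρ → θ < 1 → ∀ 𝒜 : ℕ → Set ℕ,
      ∃ E : Set ℝ, dimH E ≤ ENNReal.ofReal ((1 - τ + ρ) / (1 - θ)) ∧
        ∀ α : ℝ, a < α → α ∉ E → ∀ (i : ℕ) (b : ℝ), ∃ k₀ : ℕ, ∀ k : ℕ, k₀ ≤ k →
          ∀ p : ℕ, p.Prime → |(p : ℝ) - f k α| ≤ b * (f k α) ^ θ → Good δ τ (𝒜 i) p) ∧
    (∀ (v : ℕ → ℝ) (τ : ℝ), (∀ n, 0 < v n) → (∀ t : ℝ, τ < t → Summable (fun n : ℕ => (v n) ^ (-t))) →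
      Starshaped 0 (fun n x => v n * x) ∧ ExpLe 0 (fun n x => v n * x) τ) ∧
    (∀ v : ℕ → ℝ, (∀ n, 1 ≤ v n) → (∀ t : ℝ, 0 < t → Summable fun n : ℕ => Real.exp (-(t * v n))) →
      Starshaped 1 (fun n x => x ^ (v n)) ∧ ExpLe 1 (fun n x => x ^ (v n)) 0) ∧
    (∀ (a : ℝ) (g : ℝ → ℝ), 0 ≤ a → (∀ x y : ℝ, a < x → x ≤ y → g x / x ≤ g y / y) → (∀ x : ℝ, a < x → x < g x) →
      Starshaped a (fun n x => g^[n] x) ∧ ExpLe a (fun n x => g^[n] x) 0) := by
  refine ⟨fun δ hδ => ?_, Pool.Agent.R482.ST.ex_mul, Pool.Agent.R482.ST.ex_pow, Pool.Agent.R482.ST.ex_orbit⟩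
  obtain ⟨τ, C, hτ, hτ1, hcount⟩ := count δ hδ
  refine ⟨τ, hτ, hτ1, fun a f ρ θ hf hρ hE hθ 𝒜 => ?_⟩
  have key := fun i : ℕ => star_good_nat Nat.Prime (Good δ τ (𝒜 i)) hf hρ hE (s := 1 - τ) (by linarith) hθ (by
    intro ε hε
    refine ⟨|C|, fun X hX => (hcount (𝒜 i) X hX).trans ?_⟩
    have hX1 : (1 : ℝ) ≤ X := by exact_mod_cast hX
    refine mul_le_mul (le_abs_self C) (Real.rpow_le_rpow_of_exponent_le hX1 (by linarith)) ?_ (abs_nonneg C)
    exact Real.rpow_nonneg (by linarith) _)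
  choose E hE1 hE2 using key
  refine ⟨⋃ i, E i, ?_, fun α hα hαE i b => ?_⟩
  · rw [dimH_iUnion]
    exact iSup_le hE1
  · obtain ⟨k₀, hk⟩ := hE2 i α hα (fun h => hαE (Set.mem_iUnion.2 ⟨i, h⟩)) b
    exact ⟨k₀, fun k hk1 p hp h2 => (hk k hk1 p hp h2).2⟩

end Pool.Agent.Results.MP_cb27ba_nt.StarshapedPrimesH35
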