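import Pool.Agent.V7H48.SG.Final

/-!
# Second moments, cyclic triangles and statistics of induced patterns over one set

Q1 of the page bounds the first moment of the pairs of one set; it is zero for the odd characters.
The second moments `∑ a ∈ A, |∑ b ∈ A, χ (a - b)| ^ 2` see all characters: a power saving in them,
for a family of characters, has the same thresholds as the two-set bound for this family, and Q1 is
the power saving in the second moments for the even characters. For odd quadratic characters (the
Paley tournaments, `p = 3` modulo `4`) it says that every set `A` has almost `|A| ^ 3 / 8` cyclic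
triangles, by an exact formula.

Both imply much more. Let `χ` have order `m`. The pattern of a tuple `a` consists of the values
`χ (a i - a j)`, `i < j`. If the sums over two sets have a power saving, then the pattern of `k`
random elements of `A` is uniformly distributed up to `p ^ (-δ)` in total variation, and all patterns
on `k` points occur in `A`, for all `k` with `m ^ k ≤ p ^ δ`. For quadratic characters: the induced
subgraphs with `k ≤ δ log p / log 2` vertices of the Paley graph (or tournament) on an arbitrary set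
of `p ^ ε` vertices have the statistics of the random graph, and this is equivalent to the bound for
two sets, that is to Q1 for the Paley graphs and to the count of cyclic triangles for the tournaments.

Unconditionally this holds for all sets with more than `p ^ (1 / 2 + ε)` elements.
-/

set_option autoImplicit false

namespace Pool.Agent.Results.MP_cb27ba_nt.SubgraphStatisticsH48

open Pool.Agent.V7H48.SG

/-- all characters -/
def All (p : ℕ) (_ : MulChar (ZMod p) ℂ) : Prop := True

/-- even characters -/
def Even (p : ℕ) (χ : MulChar (ZMod p) ℂ) : Prop := χ (-1) = 1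

/-- characters with `χ ^ n = 1` -/
def Ord (n : ℕ) (p : ℕ) (χ : MulChar (ZMod p) ℂ) : Prop := χ ^ n = 1

/-- even characters with `χ ^ n = 1` -/
def EvenOrd (n : ℕ) (p : ℕ) (χ : MulChar (ZMod p) ℂ) : Prop := χ ^ n = 1 ∧ χ (-1) = 1

/-- odd quadratic characters: Legendre symbols modulo the primes `p = 3` modulo `4` -/
def OddQuad (p : ℕ) (χ : MulChar (ZMod p) ℂ) : Prop := χ ^ 2 = 1 ∧ χ (-1) = -1

theorem pc_all : PowerClosed All := fun _ _ _ _ _ => trivial

theorem even_pow {p : ℕ} (χ : MulChar (ZMod p) ℂ) (j : ℕ) (h : χ (-1) = 1) (hj : χ ^ j ≠ 1) :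
    (χ ^ j) (-1) = 1 := by
  have hj0 : j ≠ 0 := by
    rintro rfl
    exact hj (pow_zero χ)
  rw [MulChar.pow_apply' χ hj0, h, one_pow]

theorem pc_even : PowerClosed Even := fun _ χ j h hj => even_pow χ j h hj

theorem pc_ord (n : ℕ) : PowerClosed (Ord n) := by
  intro p χ j h _
  change (χ ^ j) ^ n = 1
  rw [← pow_mul, mul_comm, pow_mul, h, one_pow]

theorem pc_evenOrd (n : ℕ) : PowerClosed (EvenOrd n) :=
  fun p χ j h hj => ⟨pc_ord n p χ j h.1 hj, even_pow χ j h.2 hj⟩

theorem q1_even (α : ℝ) (hα : 0 ≤ α) : Q1For All α ↔ Above (TwoSaves Even) α := by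
  rw [q1For_iff α hα]
  have h : (fun (p : ℕ) (χ : MulChar (ZMod p) ℂ) => All p χ ∧ χ (-1) = 1) = Even := by
    funext p χ
    exact propext ⟨fun h => h.2, fun h => ⟨trivial, h⟩⟩
  rw [h]

theorem result :
    -- (1) second moments over one set and sums over two sets: the same thresholds, for every family
    -- of characters; the exponents
    (∀ (F : ∀ p : ℕ, MulChar (ZMod p) ℂ → Prop) (α : ℝ),
      Above (TwoSaves F) α ↔ Above (SecondSaves F) α) ∧
    (∀ (F : ∀ p : ℕ, MulChar (ZMod p) ℂ → Prop) (α δ η θ : ℝ), θ < min δ η →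
      TwoSaves F α δ → SecondSaves F (α + η) θ) ∧
    (∀ (F : ∀ p : ℕ, MulChar (ZMod p) ℂ → Prop) (α δ θ : ℝ), θ < δ / 2 →
      SecondSaves F α δ → TwoSaves F α θ) ∧
    -- (2) Q1, above every exponent and for every family of characters, is the power saving in the
    -- second moments for the even characters of the family
    (∀ (F : ∀ p : ℕ, MulChar (ZMod p) ℂ → Prop) (α : ℝ), 0 ≤ α →
      (Q1For F α ↔ Above (SecondSaves fun p χ => F p χ ∧ χ (-1) = 1) α)) ∧
    -- (3) odd quadratic characters: the number of cyclic triangles, every prime and every set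
    (∀ (p : ℕ) [Fact p.Prime] (χ : MulChar (ZMod p) ℂ), OddQuad p χ → ∀ A : Finset (ZMod p),
      (cyc χ A : ℝ) =
        ((A.card : ℝ) ^ 3 - A.card - 3 * ∑ a ∈ A, ‖∑ b ∈ A, χ (a - b)‖ ^ 2) / 8) ∧
    -- (4) the bound for two sets and odd quadratic characters is the count of cyclic triangles;
    -- the bound for two sets and all quadratic characters is Q1 for them together with this count
    (∀ α : ℝ, 0 ≤ α →
      (Above (TwoSaves OddQuad) α ↔ Above (CycSaves OddQuad) α) ∧
      (Above (TwoSaves (Ord 2)) α ↔ Q1For (Ord 2) α ∧ Above (CycSaves OddQuad) α)) ∧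
    -- (5) two sets control the statistics of the patterns on `k` points and the occurrence of all
    -- patterns; the exponents
    (∀ F : ∀ p : ℕ, MulChar (ZMod p) ℂ → Prop, PowerClosed F → ∀ α : ℝ, 0 ≤ α →
      Above (TwoSaves F) α → Above (fun ε δ => StatSaves F ε δ ∧ PatternSaves F ε δ) α) ∧
    (∀ F : ∀ p : ℕ, MulChar (ZMod p) ℂ → Prop, PowerClosed F → ∀ α δ η : ℝ, 0 ≤ α → 0 < δ →
      0 < η → TwoSaves F α δ →
        StatSaves F (α + η) (min δ η / 6) ∧ PatternSaves F (α + η) (min δ η / 12)) ∧
    -- (6) in particular Q1 implies both, for the even characters of every order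
    (∀ α : ℝ, 0 ≤ α → Q1For All α →
      Above (fun ε δ => StatSaves Even ε δ ∧ PatternSaves Even ε δ) α) ∧
    -- (7) for the characters with `χ ^ n = 1` the statistics are equivalent to the bound for two
    -- sets, and for the even ones to Q1
    (∀ n : ℕ, 0 < n → ∀ α : ℝ, 0 ≤ α →
      (Above (TwoSaves (Ord n)) α ↔ Above (StatSaves (Ord n)) α) ∧
      (Q1For (Ord n) α ↔ Above (StatSaves (EvenOrd n)) α)) ∧
    -- (8) sets with more than `p ^ (1 / 2 + ε)` elements, all characters
    (∀ ε : ℝ, 0 < ε → ∃ δ : ℝ, 0 < δ ∧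
      StatSaves All (1 / 2 + ε) δ ∧ PatternSaves All (1 / 2 + ε) δ) ∧
    -- (9) every prime, every set and every `k`: explicit bounds
    (∀ (p : ℕ) [Fact p.Prime] (χ : MulChar (ZMod p) ℂ), χ ≠ 1 → ∀ (A : Finset (ZMod p)) (k : ℕ),
      (A.Nonempty → (p : ℝ) ≤ (A.card : ℝ) ^ 2 → Stat (dk χ) A (orderOf χ) k
        (4 * k * Real.sqrt ((orderOf χ : ℝ) ^ k * ((p : ℝ) / (A.card : ℝ) ^ 2)))) ∧
      (16 * k * (orderOf χ : ℝ) ^ 3 * (2 * orderOf χ : ℝ) ^ (3 * k) * p < (A.card : ℝ) ^ 2 →
        AllPatterns (dk χ) A (orderOf χ) k)) := by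
  have hodd : ∀ α : ℝ, 0 ≤ α → (Above (TwoSaves OddQuad) α ↔ Above (CycSaves OddQuad) α) :=
    fun α hα => cyc_two (fun _ _ h => h) α hα
  refine ⟨fun F α => second_iff α, fun F α δ η θ h H => second_of_two H h,
    fun F α δ θ h H => two_of_second H h, ?_, ?_, ?_, fun F hF α hα h => stat_above hF α hα h,
    fun F hF α δ η h1 h2 h3 h => stat_of_two hF h1 h2 h3 h, ?_, ?_, half, ?_⟩
  · intro F α hα
    exact (q1For_iff α hα).trans (second_iff α)
  · intro p _ χ h A
    exact cyc_eq χ (quad_values χ h.1) h.2 A
  · intro α hα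
    refine ⟨hodd α hα, ?_⟩
    rw [split_iff α, q1For_iff α hα]
    exact and_congr Iff.rfl (hodd α hα)
  · intro α hα h
    exact stat_above pc_even α hα ((q1_even α hα).1 h)
  · intro n hn α hα
    exact ⟨stat_iff hn (pc_ord n) (fun _ _ h => h) α hα,
      (q1For_iff α hα).trans (stat_iff hn (pc_evenOrd n) (fun _ _ h => h.1) α hα)⟩
  · intro p _ χ hχ A k
    exact ⟨fun hA hp => classical_stat χ hχ A hA hp k,
      fun hk => classical_patterns χ hχ A k hk⟩

end Pool.Agent.Results.MP_cb27ba_nt.SubgraphStatisticsH48
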